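import Mathlib
import Pool.Agent.Helper134_LF.Jul

/-!
# Julia sets and invariant line fields in the families `P (z ^ n * A z) + t`

For fixed polynomials `P` and `A`, where all roots of `A` are in the open unit disc, and for large
`n` we consider ALL polynomials `T_t (z) = P (z ^ n * A z) + t` with `t` in a fixed disc, except for
the `t` for which `P (0) + t` is near the unit circle. The Julia set of each of them is small: its
area is at most `K n ^ (- (m + 1) / (m - 1))`, where `m` bounds the local degrees of `P` at its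
critical points. And for most of them it is a null set: the exceptional parameters have area at
most `K n ^ (- (m + 1) / (m - 1))`.
-/

set_option autoImplicit false

open Polynomial Filter Topology MeasureTheory

namespace Pool.Agent.Results.MP_70a088_an.JuliaAreaInCompositions

/-- The polynomial as a self-map of the plane. -/
def map (T : ℂ[X]) : ℂ → ℂ := fun w : ℂ => T.eval w

/-- The orbit of `z` tends to infinity. -/
def Escapes (T : ℂ[X]) (z : ℂ) : Prop :=
  Tendsto (fun k : ℕ => ‖(map T)^[k] z‖) atTop atTop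

/-- The orbit of `z` converges to an attracting fixed point. -/
def Converges (T : ℂ[X]) (z : ℂ) : Prop :=
  ∃ x : ℂ, map T x = x ∧ ‖deriv (map T) x‖ < 1 ∧
    Tendsto (fun k : ℕ => (map T)^[k] z) atTop (𝓝 x)

/-- The filled Julia set. -/
def filled (T : ℂ[X]) : Set ℂ := {z : ℂ | ¬ Escapes T z}

/-- The Julia set. -/
def julia (T : ℂ[X]) : Set ℂ := frontier (filled T)

/-- `μ` is an invariant line field supported on the Julia set of `T`; it is of absolute value one on
the set `S` of positive measure, and vanishes off `S`. -/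
structure LineField (T : ℂ[X]) (μ : ℂ → ℂ) (S : Set ℂ) : Prop where
  meas : Measurable μ
  one : ∀ z ∈ S, ‖μ z‖ = 1
  off : ∀ z, z ∉ S → μ z = 0
  pos : 0 < volume S
  sub : S ⊆ julia T
  inv : ∀ᵐ z : ℂ, μ (map T z) * (starRingEnd ℂ (deriv (map T) z) / deriv (map T) z) = μ z

/-- `T` has an invariant line field supported on its Julia set. -/
def HasLineField (T : ℂ[X]) : Prop := ∃ (μ : ℂ → ℂ) (S : Set ℂ), LineField T μ S

/-- The parameters under consideration: the `t` in the disc of radius `M` for which `|P(0) + t|`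
differs from `1` by at least `κ`. -/
def Params (P : ℂ[X]) (M κ : ℝ) : Set ℂ := {t | ‖t‖ ≤ M ∧ κ ≤ |‖P.eval 0 + t‖ - 1|}

/-- The family. -/
noncomputable def Fam (P A : ℂ[X]) (n : ℕ) (t : ℂ) : ℂ[X] := P.comp (X ^ n * A) + C t

/-- Let `P` be a nonconstant polynomial, `A` a nonzero polynomial with all roots in the open unit
disc, and let `m ≥ 2` be such that every critical point of `P` has local degree at most `m` (that
is, its multiplicity as a zero of `P'` is less than `m`). Let `T_t (z) = P (z ^ n * A z) + t`. Then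
there is a constant `K` such that for all large `n`

(1) for EVERY parameter `t` all points of the plane, except for a set of area at most
`K n ^ (- (m + 1) / (m - 1))`, escape or converge to an attracting fixed point; so the area of the
Julia set, and of the support of every invariant line field on it, is at most
`K n ^ (- (m + 1) / (m - 1))`;

(2) the parameters for which the Julia set has positive area, or carries an invariant line field,
have area at most `K n ^ (- (m + 1) / (m - 1))`, and at most `K n ^ (- 2 m / (m - 1))` in every disc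
of radius `1 / n`;

(3) within `K n ^ (- m / (m - 1))` of every parameter there is one for which the Julia set is a null
set, and carries no invariant line field. -/
theorem result (P A : ℂ[X]) (hP : 0 < P.natDegree) (hA : A ≠ 0)
    (hroot : ∀ a : ℂ, A.eval a = 0 → ‖a‖ < 1) (m : ℕ) (hm2 : 2 ≤ m)
    (hm : ∀ y : ℂ, (derivative P).eval y = 0 → (derivative P).rootMultiplicity y < m)
    (M κ : ℝ) (hκ : 0 < κ) :
    ∃ K : ℝ, 0 < K ∧ ∃ n₀ : ℕ, ∀ n : ℕ, n₀ ≤ n →
      (∀ t ∈ Params P M κ,
        volume {z : ℂ | ¬ Escapes (Fam P A n t) z ∧ ¬ Converges (Fam P A n t) z} ≤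
          ENNReal.ofReal (K * (n : ℝ) ^ (-(((m : ℝ) + 1) / ((m : ℝ) - 1)))) ∧
        volume (julia (Fam P A n t)) ≤
          ENNReal.ofReal (K * (n : ℝ) ^ (-(((m : ℝ) + 1) / ((m : ℝ) - 1)))) ∧
        ∀ (μ : ℂ → ℂ) (S : Set ℂ), LineField (Fam P A n t) μ S → volume S ≤
          ENNReal.ofReal (K * (n : ℝ) ^ (-(((m : ℝ) + 1) / ((m : ℝ) - 1))))) ∧
      volume {t ∈ Params P M κ | volume (julia (Fam P A n t)) ≠ 0 ∨ HasLineField (Fam P A n t)} ≤
          ENNReal.ofReal (K * (n : ℝ) ^ (-(((m : ℝ) + 1) / ((m : ℝ) - 1)))) ∧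
      (∀ t₀ : ℂ, volume {t ∈ Params P M κ | ‖t - t₀‖ ≤ 1 / n ∧
        (volume (julia (Fam P A n t)) ≠ 0 ∨ HasLineField (Fam P A n t))} ≤
          ENNReal.ofReal (K * (n : ℝ) ^ (-(2 * (m : ℝ) / ((m : ℝ) - 1))))) ∧
      ∀ t ∈ Params P M κ, ∃ t' : ℂ, ‖t' - t‖ ≤ K * (n : ℝ) ^ (-((m : ℝ) / ((m : ℝ) - 1))) ∧
        volume (julia (Fam P A n t')) = 0 ∧ ¬ HasLineField (Fam P A n t') := by
  obtain ⟨K₁, hK₁, n₁, h₁⟩ := Pool.Agent.Helper134.AS.main_comp (M := max M 0) (κ := κ) hP hA hroot
    hm2 hm (le_max_right _ _) hκ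
  obtain ⟨K₂, hK₂, n₂, h₂⟩ := Pool.Agent.Helper134.LF.capt_area (M := max M 0) (κ := κ) hP hA hroot
    hm2 hm (le_max_right _ _) hκ
  have hjul : ∀ T : ℂ[X], 2 ≤ T.natDegree → julia T ⊆ {z | ¬ Pool.Agent.H713R5.QJ.Good
      (Pool.Agent.H713R5.QJ.ev T) z} := fun T hT z hz =>
    Pool.Agent.Helper134.LF.frontier_good hT hz
  have hline : ∀ (T : ℂ[X]) (μ : ℂ → ℂ) (S : Set ℂ), LineField T μ S →
      volume S ≤ volume (julia T) := fun T μ S h => measure_mono h.sub
  have hno : ∀ T : ℂ[X], HasLineField T → volume (julia T) ≠ 0 := by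
    rintro T ⟨μ, S, h⟩
    exact (h.pos.trans_le (hline T μ S h)).ne'
  have hnull : ∀ T : ℂ[X], 2 ≤ T.natDegree → Pool.Agent.H113R3.DH.Hyp T →
      volume (julia T) = 0 := fun T hT h =>
    measure_mono_null (hjul T hT) (Pool.Agent.Helper134.LF.null_of_hyp hT h)
  refine ⟨K₁ + K₂, by positivity, max (max n₁ n₂) 2, fun n hn => ?_⟩
  have hn1 : n₁ ≤ n := ((le_max_left _ _).trans (le_max_left _ _)).trans hn
  have hn2 : n₂ ≤ n := ((le_max_right _ _).trans (le_max_left _ _)).trans hn
  have hn3 : 2 ≤ n := (le_max_right _ _).trans hn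
  obtain ⟨a1, a2, a3⟩ := h₁ n hn1
  have hdeg : ∀ t : ℂ, 2 ≤ (Fam P A n t).natDegree := fun t =>
    Pool.Agent.Helper134.LF.natDegree_TT hP hA hn3 t
  have hup : ∀ x : ℝ, 0 ≤ x → ENNReal.ofReal (K₁ * x) ≤ ENNReal.ofReal ((K₁ + K₂) * x) ∧
      ENNReal.ofReal (K₂ * x) ≤ ENNReal.ofReal ((K₁ + K₂) * x) := by
    intro x hx
    constructor <;> apply ENNReal.ofReal_le_ofReal <;> gcongr <;> linarith
  have hcapt : ∀ t ∈ Params P M κ,
      volume {z : ℂ | ¬ Escapes (Fam P A n t) z ∧ ¬ Converges (Fam P A n t) z} ≤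
        ENNReal.ofReal ((K₁ + K₂) * (n : ℝ) ^ (-(((m : ℝ) + 1) / ((m : ℝ) - 1)))) := by
    rintro t ⟨ht1, ht2⟩
    refine le_trans ?_ ((h₂ n hn2 t (ht1.trans (le_max_left _ _)) ht2).trans
      (hup _ (by positivity)).2)
    apply measure_mono
    rintro z ⟨hz1, hz2⟩ (h | h)
    · exact hz1 h
    · exact hz2 h
  have hjcapt : ∀ t : ℂ, julia (Fam P A n t) ⊆
      {z : ℂ | ¬ Escapes (Fam P A n t) z ∧ ¬ Converges (Fam P A n t) z} := by
    intro t z hz
    have h1 := hjul _ (hdeg t) hz
    exact ⟨fun h => h1 (Pool.Agent.Helper134.LF.good_of_capt (Or.inl h)),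
      fun h => h1 (Pool.Agent.Helper134.LF.good_of_capt (Or.inr h))⟩
  have hbad : ∀ t : ℂ, (volume (julia (Fam P A n t)) ≠ 0 ∨ HasLineField (Fam P A n t)) →
      ¬ Pool.Agent.H113R3.DH.Hyp (Pool.Agent.Helper134.AS.TT P A n t) := by
    rintro t (h | h) hh
    · exact h (hnull _ (hdeg t) hh)
    · exact hno _ h (hnull _ (hdeg t) hh)
  refine ⟨fun t ht => ⟨hcapt t ht, ?_, fun μ S h => ?_⟩, ?_, fun t₀ => ?_, ?_⟩
  · exact (measure_mono (hjcapt t)).trans (hcapt t ht)
  · exact (hline _ μ S h).trans ((measure_mono (hjcapt t)).trans (hcapt t ht))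
  · refine (measure_mono ?_).trans (a2.trans (hup _ (by positivity)).1)
    rintro t ⟨⟨ht1, ht2⟩, h⟩
    exact ⟨ht1.trans (le_max_left _ _), ht2, hbad t h⟩
  · refine (measure_mono ?_).trans ((a1 t₀).trans (hup _ (by positivity)).1)
    rintro t ⟨⟨ht1, ht2⟩, ht3, h⟩
    exact ⟨ht3, ht1.trans (le_max_left _ _), ht2, hbad t h⟩
  · rintro t ⟨ht1, ht2⟩
    obtain ⟨t', h4, h5⟩ := a3 t (ht1.trans (le_max_left _ _)) ht2
    refine ⟨t', h4.trans ?_, hnull _ (hdeg t') h5, fun h => hno _ h (hnull _ (hdeg t') h5)⟩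
    gcongr
    linarith

end Pool.Agent.Results.MP_70a088_an.JuliaAreaInCompositions
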